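import Pool.Agent.Helper192.MS.Sum
import Pool.Agent.Helper794.MSEdge

set_option autoImplicit false

/-! Murty–Simon (MP_f5a7f2_co): `sum u ≥ e(W)` (proof of helper794, docs 2285). -/

namespace Pool.Agent.Helper192.MS
open Finset Pool.Agent.Helper135.MS

theorem ptIneq : PtIneq := by
  intro h g t a b hh hc hp
  have h1 : (h : ℝ) = ((h : ℝ) - (t + a + b)) + t + a + b := by ring
  set s : ℝ := (h : ℝ) - (t + a + b) with hs
  have hs0 : 0 ≤ s := by
    have : ((t + a + b : ℕ) : ℝ) ≤ h := by exact_mod_cast hc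
    push_cast at this
    linarith
  have hn : ∀ n : ℕ, (n : ℝ) = 0 ∨ (1 : ℝ) ≤ n := by
    intro n
    rcases Nat.eq_zero_or_pos n with h | h
    · left; simp [h]
    · right; exact_mod_cast h
  have hpos : 0 < s + t + a + b := by
    rw [← h1]; exact_mod_cast hh
  have htp : (t : ℝ) = 0 ∨ (0 < s + a ∧ 0 < s + b) := by
    rcases Nat.eq_zero_or_pos t with h0 | h0
    · left; simp [h0]
    · right
      obtain ⟨p1, p2⟩ := hp h0
      have q1 : ((t + b + 1 : ℕ) : ℝ) ≤ h := by exact_mod_cast p1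
      have q2 : ((t + a + 1 : ℕ) : ℝ) ≤ h := by exact_mod_cast p2
      push_cast at q1 q2
      constructor <;> linarith
  have key := Pool.Agent.Helper794.MS.edge_main s t a b g hs0 (Nat.cast_nonneg _) (hn a) (hn b)
    (Nat.cast_nonneg _) htp hpos
  have e1 : (h : ℝ) - (t + b) = s + a := by linarith
  have e2 : (h : ℝ) - (t + a) = s + b := by linarith
  have e3 : (h : ℝ) + g - (t + a) = s + b + g := by linarith
  have e4 : (h : ℝ) + g - (t + a + b) = s + g := by linarith
  have e5 : (h : ℝ) + g = s + t + a + b + g := by linarith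
  rw [e1, e2, e3, e4, e5]
  rw [← h1] at key ⊢
  exact key

variable {V : Type*} [Fintype V] [DecidableEq V] {G : SimpleGraph V} [DecidableRel G.Adj]

/-- `sum u ≥ e(W)` -/
theorem sum_ineq_half {v : V} {K : Finset (V × V)} {z : V × V → V}
    (hg : Good G v K z) (hmax : ∀ x, G.degree x ≤ G.degree v) :
    (1 / 2 : ℝ) * ∑ w ∈ Wf G v, (df G v w : ℝ) ≤ ∑ w ∈ Wf G v, (#(Uf G v K w) : ℝ) :=
  sum_ineq_half_of ptIneq hg hmax

end Pool.Agent.Helper192.MS
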