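import Pool.Agent.Helper135.MS1

set_option autoImplicit false

/-! Murty–Simon (MP_f5a7f2_co): the two facts of helper794 (docs 2285). -/

namespace Pool.Agent.Helper192.MS
open Finset Pool.Agent.Helper135.MS

variable {V : Type*} [Fintype V] [DecidableEq V] {G : SimpleGraph V} [DecidableRel G.Adj]

/-- the neighbours `x` of `w` in `W` with `y ∈ K_x` -/
def Gy (G : SimpleGraph V) [DecidableRel G.Adj] (v : V) (K : Finset (V × V)) (w y : V) : Finset V :=
  ((Wf G v).filter (fun x => G.Adj w x)).filter (fun x => (y, x) ∈ K)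

lemma mem_Gy {v : V} {K : Finset (V × V)} {w y x : V} :
    x ∈ Gy G v K w y ↔ (x ∈ Wf G v ∧ G.Adj w x) ∧ (y, x) ∈ K := by
  simp only [Gy, mem_filter]

lemma mem_Kf {v : V} {K : Finset (V × V)} {z : V × V → V} (hg : Good G v K z) {w y : V} :
    y ∈ Kf G v K w ↔ (y, w) ∈ K := by
  simp only [Kf, mem_filter, SimpleGraph.mem_neighborFinset]
  exact ⟨fun h => h.2, fun h => ⟨hg.h1 y w h, h⟩⟩

lemma mem_Hf {v w y : V} : y ∈ Hf G v w ↔ G.Adj v y ∧ ¬ G.Adj w y := by
  simp only [Hf, mem_filter, SimpleGraph.mem_neighborFinset]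

/-- `K_w ⊆ H_x` for adjacent far vertices -/
lemma Kf_sub_Hf {v : V} {K : Finset (V × V)} {z : V × V → V} (hg : Good G v K z) {w x : V}
    (hx : x ∈ Wf G v) (hadj : G.Adj w x) : Kf G v K w ⊆ Hf G v x := by
  intro y hy
  rw [mem_Kf hg] at hy
  rw [mem_Hf]
  exact ⟨hg.h1 y w hy, K_not_adj hg hy hx hadj⟩

lemma z_not_K {v : V} {K : Finset (V × V)} {z : V × V → V} (hg : Good G v K z) {w y x : V}
    (hx : x ∈ Gy G v K w y) : z (y, x) ∉ Kf G v K w := by
  rw [mem_Gy] at hx
  rw [mem_Kf hg]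
  intro hc
  exact K_not_adj hg hc hx.1.1 hx.1.2 (hg.h6 y x hx.2).symm

lemma z_mem_H {v : V} {K : Finset (V × V)} {z : V × V → V} (hg : Good G v K z) {y x x' : V}
    (hx : (y, x) ∈ K) (hx' : (y, x') ∈ K) (hne : x' ≠ x) : z (y, x') ∈ Hf G v x := by
  rw [mem_Hf]
  refine ⟨hg.h4 y x' hx', ?_⟩
  intro hc
  have := hg.h7 y x hx (z (y, x')) (hg.h5 y x' hx') hc.symm
  exact hne (hg.h8 y x' x hx' hx this)

lemma fact1a {v : V} {K : Finset (V × V)} {z : V × V → V} (hg : Good G v K z) {w y : V}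
    (hyw : (y, w) ∈ K) : #(Gy G v K w y) + #(Kf G v K w) ≤ #(Hf G v w) := by
  have h1 : #(Gy G v K w y) ≤ #(Hf G v w \ Kf G v K w) := by
    apply Finset.card_le_card_of_injOn (fun x => z (y, x))
    · intro x hx
      have hx' : x ∈ Gy G v K w y := hx
      have h2 := mem_Gy.1 hx'
      have hne : x ≠ w := by
        rintro rfl
        exact G.loopless.irrefl _ h2.1.2
      rw [mem_coe, mem_sdiff]
      exact ⟨z_mem_H hg hyw h2.2 hne, z_not_K hg hx'⟩
    · intro a ha b hb hab
      exact hg.h8 y a b (mem_Gy.1 ha).2 (mem_Gy.1 hb).2 hab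
  rw [card_sdiff_of_subset (Kf_subset_H hg w)] at h1
  have h3 := card_le_card (Kf_subset_H hg w)
  omega

lemma fact1b {v : V} {K : Finset (V × V)} {z : V × V → V} (hg : Good G v K z) {w x y : V}
    (hx : x ∈ Wf G v) (hadj : G.Adj w x) (hyw : (y, w) ∈ K) (hyx : (y, x) ∈ K) :
    #(Gy G v K w y) + #(Kf G v K w) ≤ #(Hf G v x) := by
  have hxG : x ∈ Gy G v K w y := mem_Gy.2 ⟨⟨hx, hadj⟩, hyx⟩
  have h1 : #(Gy G v K w y) ≤ #(Hf G v x \ Kf G v K w) := by
    apply Finset.card_le_card_of_injOn (fun x' => if x' = x then z (y, w) else z (y, x'))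
    · intro x' hx'
      have hx'' : x' ∈ Gy G v K w y := hx'
      have h2 := mem_Gy.1 hx''
      rw [mem_coe, mem_sdiff]
      by_cases h : x' = x
      · simp only [h, if_true]
        refine ⟨z_mem_H hg hyx hyw ?_, ?_⟩
        · rintro rfl
          exact G.loopless.irrefl _ hadj
        · rw [mem_Kf hg]
          intro hc
          exact hg.h3 _ _ hc (hg.h6 y w hyw)
      · simp only [h, if_false]
        exact ⟨z_mem_H hg hyx h2.2 h, z_not_K hg hx''⟩
    · intro a ha b hb hab
      have ha' := mem_Gy.1 (show a ∈ Gy G v K w y from ha)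
      have hb' := mem_Gy.1 (show b ∈ Gy G v K w y from hb)
      have hw : ∀ c, c ∈ Gy G v K w y → c ≠ w := by
        intro c hc
        rintro rfl
        exact G.loopless.irrefl _ (mem_Gy.1 hc).1.2
      dsimp only at hab
      by_cases h1 : a = x
      · by_cases h2 : b = x
        · rw [h1, h2]
        · rw [if_pos h1, if_neg h2] at hab
          exact absurd (hg.h8 y w b hyw hb'.2 hab).symm (hw b hb)
      · by_cases h2 : b = x
        · rw [if_neg h1, if_pos h2] at hab
          exact absurd (hg.h8 y a w ha'.2 hyw hab) (hw a ha)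
        · rw [if_neg h1, if_neg h2] at hab
          exact hg.h8 y a b ha'.2 hb'.2 hab
  rw [card_sdiff_of_subset (Kf_sub_Hf hg hx hadj)] at h1
  have h3 := card_le_card (Kf_sub_Hf hg hx hadj)
  omega

/-- FACT 2 -/
lemma fact2 {v : V} {K : Finset (V × V)} {z : V × V → V} (hg : Good G v K z)
    (h9 : ∀ y w y' w', (y, w) ∈ K → (y', w') ∈ K → s(y, z (y, w)) = s(y', z (y', w')) →
      (y, w) = (y', w')) {w x : V}
    (hx : x ∈ Wf G v) (hadj : G.Adj w x) :
    2 * ∑ y ∈ Kf G v K x \ Kf G v K w, #(Gy G v K w y) +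
      2 * #(Kf G v K x \ Kf G v K w) * #(Kf G v K w ∪ Kf G v K x) ≤
      #(Kf G v K x \ Kf G v K w) * (2 * #(Hf G v x) + #(Kf G v K x \ Kf G v K w) + 1) := by
  classical
  set B := Kf G v K x \ Kf G v K w with hB
  -- the elements outside of `B`
  have h1 : ∀ y ∈ B, #(Gy G v K w y) ≤
      1 + #(Hf G v x \ (Kf G v K w ∪ Kf G v K x)) +
        #((Gy G v K w y).filter (fun x' => x' ≠ x ∧ z (y, x') ∈ B)) := by
    intro y hy
    rw [hB, mem_sdiff, mem_Kf hg, mem_Kf hg] at hy
    have h2 : Gy G v K w y ⊆ ({x} ∪ (Gy G v K w y).filter (fun x' => x' ≠ x ∧ z (y, x') ∉ B)) ∪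
        (Gy G v K w y).filter (fun x' => x' ≠ x ∧ z (y, x') ∈ B) := by
      intro x' hx'
      simp only [mem_union, mem_singleton, mem_filter]
      tauto
    have h3 : #((Gy G v K w y).filter (fun x' => x' ≠ x ∧ z (y, x') ∉ B)) ≤
        #(Hf G v x \ (Kf G v K w ∪ Kf G v K x)) := by
      apply Finset.card_le_card_of_injOn (fun x' => z (y, x'))
      · intro x' hx'
        have h4 := mem_filter.1 (mem_coe.1 hx')
        have h5 := mem_Gy.1 h4.1
        have h6 := z_not_K hg h4.1
        rw [mem_coe, mem_sdiff, mem_union]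
        refine ⟨z_mem_H hg hy.1 h5.2 h4.2.1, ?_⟩
        rintro (h | h)
        · exact h6 h
        · exact h4.2.2 (mem_sdiff.2 ⟨h, h6⟩)
      · intro a ha b hb hab
        exact hg.h8 y a b (mem_Gy.1 (mem_filter.1 (mem_coe.1 ha)).1).2
          (mem_Gy.1 (mem_filter.1 (mem_coe.1 hb)).1).2 hab
    calc #(Gy G v K w y) ≤ _ := card_le_card h2
      _ ≤ _ := card_union_le _ _
      _ ≤ _ := by
        have h7 := card_union_le ({x} : Finset V)
          ((Gy G v K w y).filter (fun x' => x' ≠ x ∧ z (y, x') ∉ B))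
        rw [card_singleton] at h7
        omega
  -- the pairs inside of `B`
  have h8 : ∑ y ∈ B, #((Gy G v K w y).filter (fun x' => x' ≠ x ∧ z (y, x') ∈ B)) ≤
      (#B).choose 2 := by
    rw [← card_sigma, ← card_powersetCard]
    apply Finset.card_le_card_of_injOn
      (fun p : (_ : V) × V => ({p.1, z (p.1, p.2)} : Finset V))
    · rintro ⟨y, x'⟩ hp
      rw [mem_coe, mem_sigma] at hp
      obtain ⟨hy, hx'⟩ := hp
      have h4 := mem_filter.1 hx'
      have h5 := mem_Gy.1 h4.1
      rw [mem_coe, mem_powersetCard]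
      refine ⟨?_, ?_⟩
      · intro q hq
        simp only [mem_insert, mem_singleton] at hq
        rcases hq with rfl | rfl
        · exact hy
        · exact h4.2.2
      · exact card_pair (hg.h5 y x' h5.2).ne
    · rintro ⟨y, x'⟩ hp ⟨y', x''⟩ hp' hpp
      rw [mem_coe, mem_sigma] at hp hp'
      have h5 := mem_Gy.1 (mem_filter.1 hp.2).1
      have h5' := mem_Gy.1 (mem_filter.1 hp'.2).1
      dsimp only at h5 h5' hpp
      have h6 : s(y, z (y, x')) = s(y', z (y', x'')) := by
        have e1 : ∀ a b c d : V, ({a, b} : Finset V) = {c, d} → s(a, b) = s(c, d) := by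
          intro a b c d h
          rw [Sym2.eq_iff]
          have ha : a ∈ ({c, d} : Finset V) := by rw [← h]; simp
          have hb : b ∈ ({c, d} : Finset V) := by rw [← h]; simp
          have hc : c ∈ ({a, b} : Finset V) := by rw [h]; simp
          have hd : d ∈ ({a, b} : Finset V) := by rw [h]; simp
          simp only [mem_insert, mem_singleton] at ha hb hc hd
          rcases ha with rfl | rfl
          · rcases hd with rfl | rfl
            · rcases hb with rfl | rfl <;> simp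
            · simp
          · rcases hc with rfl | rfl
            · rcases hb with rfl | rfl <;> simp
            · simp
        exact e1 _ _ _ _ hpp
      have h7 := h9 y x' y' x'' h5.2 h5'.2 h6
      rw [Prod.mk.injEq] at h7
      obtain ⟨rfl, rfl⟩ := h7
      rfl
  have hsub : Kf G v K w ∪ Kf G v K x ⊆ Hf G v x :=
    union_subset (Kf_sub_Hf hg hx hadj) (Kf_subset_H hg x)
  have h10 : #(Hf G v x \ (Kf G v K w ∪ Kf G v K x)) + #(Kf G v K w ∪ Kf G v K x) = #(Hf G v x) := by
    rw [card_sdiff_of_subset hsub]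
    have := card_le_card hsub
    omega
  have h11 := Finset.sum_le_sum h1
  rw [sum_add_distrib, sum_const, smul_eq_mul] at h11
  have h12 : 2 * (#B).choose 2 + #B = #B * #B := by
    rw [Nat.choose_two_right, Nat.mul_div_cancel' (Nat.even_mul_pred_self _).two_dvd]
    cases h : #B with
    | zero => simp
    | succ n => simp; ring
  have h13 : #B * (1 + #(Hf G v x \ (Kf G v K w ∪ Kf G v K x))) +
      #B * #(Kf G v K w ∪ Kf G v K x) = #B + #B * #(Hf G v x) := by
    rw [← h10]; ring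
  nlinarith [h11, h8, h12, h13]

/-- FACT (T) -/
lemma factT {v : V} {K : Finset (V × V)} {z : V × V → V} (hg : Good G v K z) {w : V}
    (hw : w ∈ Wf G v) :
    ∑ x ∈ (Wf G v).filter (fun x => G.Adj w x), ∑ y ∈ Kf G v K x, (1 / (#(Gy G v K w y) : ℝ)) ≤
      (#(Hf G v w) : ℝ) := by
  classical
  have h1 : ∑ x ∈ (Wf G v).filter (fun x => G.Adj w x), ∑ y ∈ Kf G v K x,
      (1 / (#(Gy G v K w y) : ℝ)) =
      ∑ x ∈ (Wf G v).filter (fun x => G.Adj w x), ∑ y ∈ Hf G v w,
        if (y, x) ∈ K then (1 / (#(Gy G v K w y) : ℝ)) else 0 := by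
    apply Finset.sum_congr rfl
    intro x hx
    rw [mem_filter] at hx
    rw [← Finset.sum_filter]
    apply Finset.sum_congr _ fun _ _ => rfl
    ext y
    rw [mem_filter, mem_Kf hg]
    constructor
    · intro h
      exact ⟨mem_Hf.2 ⟨hg.h1 y x h, K_not_adj hg h hw hx.2.symm⟩, h⟩
    · exact fun h => h.2
  rw [h1, Finset.sum_comm]
  have h2 : ∀ y ∈ Hf G v w, (∑ x ∈ (Wf G v).filter (fun x => G.Adj w x),
      if (y, x) ∈ K then (1 / (#(Gy G v K w y) : ℝ)) else 0) ≤ 1 := by
    intro y _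
    rw [← Finset.sum_filter, Finset.sum_const, nsmul_eq_mul]
    show (#(Gy G v K w y) : ℝ) * _ ≤ 1
    rcases Nat.eq_zero_or_pos (#(Gy G v K w y)) with h | h
    · rw [h]; simp
    · have : (0 : ℝ) < #(Gy G v K w y) := by exact_mod_cast h
      rw [mul_one_div_cancel this.ne']
  refine (Finset.sum_le_sum h2).trans ?_
  simp

end Pool.Agent.Helper192.MS
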