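import Pool.Agent.Helper192.MS.Facts

set_option autoImplicit false

/-! Murty–Simon (MP_f5a7f2_co): the summation (proof of helper794, docs 2285). -/

namespace Pool.Agent.Helper192.MS
open Finset Pool.Agent.Helper135.MS

/-- the pointwise inequality -/
def PtIneq : Prop := ∀ h g t a b : ℕ, 1 ≤ h → t + a + b ≤ h →
  (0 < t → t + b + 1 ≤ h ∧ t + a + 1 ≤ h) →
  (2 : ℝ) ≤ (((h : ℝ) - (t + b)) / h) *
      (1 + t / ((h : ℝ) - (t + b)) + a / ((h : ℝ) + g - (t + a + b) + (a + 1) / 2)) +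
    (((h : ℝ) + g - (t + a)) / (h + g)) *
      (1 + t / ((h : ℝ) - (t + a)) + b / ((h : ℝ) - (t + a + b) + (b + 1) / 2))

variable {V : Type*} [Fintype V] [DecidableEq V] {G : SimpleGraph V} [DecidableRel G.Adj]

/-- the inner sum -/
noncomputable def SI (G : SimpleGraph V) [DecidableRel G.Adj] (v : V) (K : Finset (V × V))
    (w x : V) : ℝ := ∑ y ∈ Kf G v K x, (1 / (#(Gy G v K w y) : ℝ))

noncomputable def FF (G : SimpleGraph V) [DecidableRel G.Adj] (v : V) (K : Finset (V × V))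
    (w x : V) : ℝ := ((#(Uf G v K w) : ℝ) / #(Hf G v w)) * (1 + SI G v K w x)

lemma FF_row {v : V} {K : Finset (V × V)} {z : V × V → V} (hg : Good G v K z)
    (hmax : ∀ x, G.degree x ≤ G.degree v) {w : V} (hw : w ∈ Wf G v) :
    ∑ x ∈ (Wf G v).filter (fun x => G.Adj w x), FF G v K w x ≤ 2 * (#(Uf G v K w) : ℝ) := by
  unfold FF
  rw [← Finset.mul_sum, Finset.sum_add_distrib, Finset.sum_const, nsmul_eq_mul, mul_one]
  have h1 := factT hg hw
  have h2 : (#((Wf G v).filter (fun x => G.Adj w x)) : ℝ) ≤ #(Hf G v w) := by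
    exact_mod_cast d_le_h hmax hw
  have h3 : (0 : ℝ) ≤ #(Uf G v K w) := Nat.cast_nonneg _
  rcases Nat.eq_zero_or_pos (#(Hf G v w)) with h | h
  · rw [h]
    simp
  · have h4 : (0 : ℝ) < #(Hf G v w) := by exact_mod_cast h
    calc ((#(Uf G v K w) : ℝ) / #(Hf G v w)) *
        (#((Wf G v).filter (fun x => G.Adj w x)) +
          ∑ x ∈ (Wf G v).filter (fun x => G.Adj w x), SI G v K w x)
        ≤ ((#(Uf G v K w) : ℝ) / #(Hf G v w)) * (#(Hf G v w) + #(Hf G v w)) := by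
          refine mul_le_mul_of_nonneg_left (add_le_add h2 h1) (by positivity)
      _ = 2 * (#(Uf G v K w) : ℝ) := by field_simp; ring

lemma SI_lower {v : V} {K : Finset (V × V)} {z : V × V → V} (hg : Good G v K z)
    (h9 : ∀ y w y' w', (y, w) ∈ K → (y', w') ∈ K → s(y, z (y, w)) = s(y', z (y', w')) →
      (y, w) = (y', w')) {w x : V}
    (hw : w ∈ Wf G v) (hx : x ∈ Wf G v) (hadj : G.Adj w x) (m : ℕ)
    (hm : m = #(Hf G v w) ∨ m = #(Hf G v x)) :
    (#(Kf G v K w ∩ Kf G v K x) : ℝ) / ((m : ℝ) - #(Kf G v K w)) +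
      (#(Kf G v K x \ Kf G v K w) : ℝ) / ((#(Hf G v x) : ℝ) - #(Kf G v K w ∪ Kf G v K x) +
        (#(Kf G v K x \ Kf G v K w) + 1) / 2) ≤ SI G v K w x := by
  classical
  unfold SI
  have hsplit : ∑ y ∈ Kf G v K x, (1 / (#(Gy G v K w y) : ℝ)) =
      ∑ y ∈ Kf G v K w ∩ Kf G v K x, (1 / (#(Gy G v K w y) : ℝ)) +
        ∑ y ∈ Kf G v K x \ Kf G v K w, (1 / (#(Gy G v K w y) : ℝ)) := by
    rw [inter_comm, Finset.sum_inter_add_sum_sdiff]
  rw [hsplit]
  have hpos : ∀ y ∈ Kf G v K x, (1 : ℝ) ≤ #(Gy G v K w y) := by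
    intro y hy
    rw [mem_Kf hg] at hy
    have : x ∈ Gy G v K w y := mem_Gy.2 ⟨⟨hx, hadj⟩, hy⟩
    exact_mod_cast card_pos.2 ⟨x, this⟩
  refine add_le_add ?_ ?_
  · have h1 : ∀ y ∈ Kf G v K w ∩ Kf G v K x,
        1 / ((m : ℝ) - #(Kf G v K w)) ≤ 1 / (#(Gy G v K w y) : ℝ) := by
      intro y hy
      rw [mem_inter] at hy
      have hp := hpos y hy.2
      have hyw := (mem_Kf hg).1 hy.1
      have hyx := (mem_Kf hg).1 hy.2
      have h2 : (#(Gy G v K w y) : ℝ) ≤ (m : ℝ) - #(Kf G v K w) := by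
        rcases hm with rfl | rfl
        · have := fact1a hg hyw
          have h3 : (#(Gy G v K w y) : ℝ) + #(Kf G v K w) ≤ #(Hf G v w) := by exact_mod_cast this
          linarith
        · have := fact1b hg hx hadj hyw hyx
          have h3 : (#(Gy G v K w y) : ℝ) + #(Kf G v K w) ≤ #(Hf G v x) := by exact_mod_cast this
          linarith
      exact one_div_le_one_div_of_le (by linarith) h2
    have h2 := Finset.sum_le_sum h1
    rw [Finset.sum_const, nsmul_eq_mul, mul_one_div] at h2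
    exact h2
  · set B := Kf G v K x \ Kf G v K w with hB
    have hf2 := fact2 hg h9 hx hadj
    rw [← hB] at hf2
    have hf2' : 2 * ∑ y ∈ B, (#(Gy G v K w y) : ℝ) + 2 * #B * #(Kf G v K w ∪ Kf G v K x) ≤
        #B * (2 * #(Hf G v x) + #B + 1) := by exact_mod_cast hf2
    rcases B.eq_empty_or_nonempty with h0 | h0
    · rw [h0]; simp
    · have hBpos : (0 : ℝ) < #B := by exact_mod_cast card_pos.2 h0
      have hp : ∀ y ∈ B, (0 : ℝ) < #(Gy G v K w y) := by
        intro y hy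
        have := hpos y (mem_sdiff.1 (hB ▸ hy)).1
        linarith
      have h1 := Finset.sq_sum_div_le_sum_sq_div B (fun _ => (1 : ℝ)) hp
      have hs : (0 : ℝ) < ∑ y ∈ B, (#(Gy G v K w y) : ℝ) := Finset.sum_pos hp h0
      simp only [one_pow] at h1
      refine le_trans ?_ h1
      rw [Finset.sum_const, nsmul_eq_mul, mul_one]
      have hsub : #(Kf G v K w ∪ Kf G v K x) ≤ #(Hf G v x) :=
        card_le_card (union_subset (Kf_sub_Hf hg hx hadj) (Kf_subset_H hg x))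
      have hsub' : (#(Kf G v K w ∪ Kf G v K x) : ℝ) ≤ #(Hf G v x) := by exact_mod_cast hsub
      have hd : (0 : ℝ) < (#(Hf G v x) : ℝ) - #(Kf G v K w ∪ Kf G v K x) + (#B + 1) / 2 := by
        linarith
      rw [div_le_div_iff₀ hd hs]
      nlinarith [hf2', hBpos]

lemma FF_edge (hP : PtIneq) {v : V} {K : Finset (V × V)} {z : V × V → V} (hg : Good G v K z)
    (h9 : ∀ y w y' w', (y, w) ∈ K → (y', w') ∈ K → s(y, z (y, w)) = s(y', z (y', w')) →
      (y, w) = (y', w')) {w x : V}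
    (hw : w ∈ Wf G v) (hx : x ∈ Wf G v) (hadj : G.Adj w x)
    (hle : #(Hf G v w) ≤ #(Hf G v x)) (hd : 1 ≤ #(Hf G v w)) :
    2 ≤ FF G v K w x + FF G v K x w := by
  classical
  set h := #(Hf G v w) with hh
  obtain ⟨g, hgx⟩ := Nat.exists_eq_add_of_le hle
  set t := #(Kf G v K w ∩ Kf G v K x) with ht
  set a := #(Kf G v K x \ Kf G v K w) with ha
  set b := #(Kf G v K w \ Kf G v K x) with hb
  have e1 : #(Kf G v K w) = t + b := by
    rw [ht, hb, card_inter_add_card_sdiff]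
  have e2 : #(Kf G v K x) = t + a := by
    rw [ht, ha, inter_comm, card_inter_add_card_sdiff]
  have e3 : #(Kf G v K w ∪ Kf G v K x) = t + a + b := by
    have := card_union_add_card_inter (Kf G v K w) (Kf G v K x)
    omega
  have e4 := card_K_add_U hg w
  have e5 := card_K_add_U hg x
  have hc : t + a + b ≤ h := by
    rw [← e3, hh]
    exact card_le_card (union_subset (Kf_subset_H hg w) (Kf_sub_Hf hg hw hadj.symm))
  have hpos : 0 < t → t + b + 1 ≤ h ∧ t + a + 1 ≤ h := by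
    intro h0
    obtain ⟨y, hy⟩ := card_pos.1 (ht ▸ h0)
    rw [mem_inter] at hy
    have hyw := (mem_Kf hg).1 hy.1
    have hyx := (mem_Kf hg).1 hy.2
    have f1 := fact1a hg hyw
    have f2 := fact1b hg hw hadj.symm hyx hyw
    have f3 : 1 ≤ #(Gy G v K w y) := card_pos.2 ⟨x, mem_Gy.2 ⟨⟨hx, hadj⟩, hyx⟩⟩
    have f4 : 1 ≤ #(Gy G v K x y) := card_pos.2 ⟨w, mem_Gy.2 ⟨⟨hw, hadj.symm⟩, hyw⟩⟩
    omega
  have hPt := hP h g t a b hd hc hpos
  have s1 := SI_lower hg h9 hw hx hadj h (Or.inl hh)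
  have s2 := SI_lower hg h9 hx hw hadj.symm h (Or.inr hh)
  rw [inter_comm (Kf G v K x), union_comm (Kf G v K x)] at s2
  rw [← ht, ← ha, e3, e1, hgx] at s1
  rw [← ht, ← hb, e3, e2, ← hh] at s2
  have u1 : (#(Uf G v K w) : ℝ) = (h : ℝ) - (t + b) := by
    have : (#(Uf G v K w) : ℝ) + (t + b) = h := by exact_mod_cast (by omega : #(Uf G v K w) + (t + b) = h)
    linarith
  have u2 : (#(Uf G v K x) : ℝ) = (h : ℝ) + g - (t + a) := by
    have : (#(Uf G v K x) : ℝ) + (t + a) = h + g := by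
      exact_mod_cast (by omega : #(Uf G v K x) + (t + a) = h + g)
    linarith
  have hh0 : (0 : ℝ) < h := by exact_mod_cast hd
  unfold FF
  rw [← hh, hgx, u1, u2]
  push_cast at s1 s2 hPt ⊢
  have p1 : (0 : ℝ) ≤ ((h : ℝ) - (t + b)) / h := by
    rw [← u1]; positivity
  have p2 : (0 : ℝ) ≤ ((h : ℝ) + g - (t + a)) / (h + g) := by
    rw [← u2]; positivity
  refine hPt.trans (add_le_add ?_ ?_)
  · refine mul_le_mul_of_nonneg_left ?_ p1
    linarith
  · refine mul_le_mul_of_nonneg_left ?_ p2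
    linarith

/-- `sum u ≥ e(W)` -/
theorem sum_ineq' (hP : PtIneq) {v : V} {K : Finset (V × V)} {z : V × V → V} (hg : Good G v K z)
    (h9 : ∀ y w y' w', (y, w) ∈ K → (y', w') ∈ K → s(y, z (y, w)) = s(y', z (y', w')) →
      (y, w) = (y', w'))
    (hmax : ∀ x, G.degree x ≤ G.degree v) :
    (1 / 2 : ℝ) * ∑ w ∈ Wf G v, (df G v w : ℝ) ≤ ∑ w ∈ Wf G v, (#(Uf G v K w) : ℝ) := by
  classical
  have h1 : ∑ w ∈ Wf G v, ∑ x ∈ (Wf G v).filter (fun x => G.Adj w x), FF G v K w x ≤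
      ∑ w ∈ Wf G v, 2 * (#(Uf G v K w) : ℝ) := Finset.sum_le_sum fun w hw => FF_row hg hmax hw
  have h2 : ∑ w ∈ Wf G v, ∑ x ∈ (Wf G v).filter (fun x => G.Adj w x), FF G v K w x =
      ∑ w ∈ Wf G v, ∑ x ∈ (Wf G v).filter (fun x => G.Adj w x), FF G v K x w := by
    simp only [Finset.sum_filter]
    rw [Finset.sum_comm]
    refine Finset.sum_congr rfl fun w _ => Finset.sum_congr rfl fun x _ => ?_
    simp only [G.adj_comm]
  have h3 : ∑ w ∈ Wf G v, 2 * (df G v w : ℝ) ≤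
      ∑ w ∈ Wf G v, ∑ x ∈ (Wf G v).filter (fun x => G.Adj w x), (FF G v K w x + FF G v K x w) := by
    refine Finset.sum_le_sum fun w hw => ?_
    have h4 : ∀ x ∈ (Wf G v).filter (fun x => G.Adj w x), (2 : ℝ) ≤ FF G v K w x + FF G v K x w := by
      intro x hx
      rw [mem_filter] at hx
      have d1 : 1 ≤ #(Hf G v w) := by
        refine le_trans ?_ (d_le_h hmax hw)
        exact card_pos.2 ⟨x, mem_filter.2 hx⟩
      have d2 : 1 ≤ #(Hf G v x) := by
        refine le_trans ?_ (d_le_h hmax hx.1)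
        exact card_pos.2 ⟨w, mem_filter.2 ⟨hw, hx.2.symm⟩⟩
      rcases le_total (#(Hf G v w)) (#(Hf G v x)) with hle | hle
      · exact FF_edge hP hg h9 hw hx.1 hx.2 hle d1
      · rw [add_comm]
        exact FF_edge hP hg h9 hx.1 hw hx.2.symm hle d2
    have h5 := Finset.sum_le_sum h4
    rw [Finset.sum_const, nsmul_eq_mul] at h5
    calc 2 * (df G v w : ℝ) = (#((Wf G v).filter (fun x => G.Adj w x)) : ℝ) * 2 := by
          unfold df; ring
      _ ≤ _ := h5
  simp only [Finset.sum_add_distrib] at h3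
  rw [← h2] at h3
  rw [← Finset.mul_sum] at h1 h3
  linarith

/-- the same with the ninth field of `Good` -/
theorem sum_ineq_half_of (hP : PtIneq) {v : V} {K : Finset (V × V)} {z : V × V → V}
    (hg : Good G v K z) (hmax : ∀ x, G.degree x ≤ G.degree v) :
    (1 / 2 : ℝ) * ∑ w ∈ Wf G v, (df G v w : ℝ) ≤ ∑ w ∈ Wf G v, (#(Uf G v K w) : ℝ) :=
  sum_ineq' hP hg (fun y w y' w' h h' e => by
    obtain ⟨h1, h2⟩ := hg.h9 y w y' w' h h' e
    rw [h1, h2]) hmax

end Pool.Agent.Helper192.MS
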